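import Pool.Agent.W66.LO
import Pool.Agent.H381R2.HR.A1
import Pool.Agent.H381R2.HR.A2
import Pool.Agent.TH888.R.Mean

/-!
# Project TD: the mean of the indicator of a prime rough part over the reduced residues, with error term

`AA_upper'` and `AA_lower'` are adapted from `Pool.Agent.W66.LN` (constant `δ`).
-/

set_option autoImplicit false

namespace Pool.Agent.H39x.TD

open Filter Topology
open scoped Real
open Pool.Agent.W66L
open Pool.Agent.H305R2 (roughPart SM SM_pos SMz mem_SMz ZZ VV sum_rough_eq sum_le_VV tail_le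
  ZZ_nonneg VV_nonneg log_nat_tendsto)

lemma AA_upper' {b : ℕ} (hb : 2 ≤ b) {δ : ℝ} (hδ : 0 < δ) (hδ1 : δ < 1 / 4) {q : ℕ}
    (hP : ∀ x : ℝ, Real.exp ((1 - 2 * δ) * (Real.log b * q)) ≤ x →
      (Nat.primeCounting ⌊x⌋₊ : ℝ) * Real.log x ≤ (1 + δ) * x)
    (hX3 : 3 ≤ δ * (Real.log b * q)) (h2 : b ≤ q) :
    AA b q ≤ (b : ℝ) ^ q * ((1 + δ) / ((1 - 2 * δ) * (Real.log b * q)) * VB b q +
      Real.exp (-(δ * (Real.log b * q) / 2)) * ZZ q) := by
  set lb := Real.log b with hlb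
  have hlb0 : 0 < lb := Real.log_pos (by exact_mod_cast hb)
  have hq0 : (0 : ℝ) < q := by exact_mod_cast (by omega : 0 < q)
  have hlq : 0 < lb * q := by positivity
  set X := b ^ q - 1 with hX
  have hbr : (2 : ℝ) ≤ b := by exact_mod_cast hb
  have hbq : (b : ℝ) ^ q = Real.exp (lb * q) := by
    rw [mul_comm, Real.exp_nat_mul, hlb, Real.exp_log (by linarith)]
  have hXr : (X : ℝ) = (b : ℝ) ^ q - 1 := by
    rw [hX, Nat.cast_sub (Nat.one_le_pow _ _ (by omega))]
    push_cast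
    rfl
  have hXle : (X : ℝ) ≤ (b : ℝ) ^ q := by linarith
  have hXnn : (0 : ℝ) ≤ X := Nat.cast_nonneg _
  set S := Real.exp (δ * (lb * q)) with hS
  have hS0 : 0 < S := Real.exp_pos _
  have hS1 : 1 ≤ S := Real.one_le_exp (by linarith)
  rw [AA_eq hb h2, ← Finset.sum_filter_add_sum_filter_not (SMz q (X : ℝ)) (fun s : ℕ => (s : ℝ) ≤ S),
    mul_add]
  have hF : ∀ n ∈ (SMz q (X : ℝ)).filter (fun s : ℕ => (s : ℝ) ≤ S), n ∈ SM q := by
    intro n hn
    rw [Finset.mem_filter, mem_SMz hXnn] at hn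
    exact hn.1.1
  apply add_le_add
  · have hterm : ∀ s ∈ (SMz q (X : ℝ)).filter (fun s : ℕ => (s : ℝ) ≤ S),
        (if s.Coprime b then (1 : ℝ) else 0) *
          (((Finset.Ioc 0 (X / s)).filter (fun l => l.Prime ∧ q < l)).card : ℝ) ≤
        (b : ℝ) ^ q * ((1 + δ) / ((1 - 2 * δ) * (lb * q))) * copHom b s := by
      intro s hs
      rw [Finset.mem_filter, mem_SMz hXnn] at hs
      obtain ⟨⟨hs1, _⟩, hsS⟩ := hs
      have hs0 : 0 < s := SM_pos hs1
      have hs0' : (0 : ℝ) < s := by exact_mod_cast hs0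
      have hs1' : (1 : ℝ) ≤ s := by exact_mod_cast hs0
      rw [copHom_apply]
      by_cases hc : s.Coprime b
      · rw [if_pos hc, if_pos hc, one_mul]
        refine (card_inner_le _ _).trans ?_
        set x := (X : ℝ) / s with hx
        have hfl : X / s = ⌊x⌋₊ := by rw [hx, Nat.floor_div_eq_div]
        have hxlow : Real.exp ((1 - 2 * δ) * (lb * q)) ≤ x := by
          rw [hx, le_div_iff₀ hs0', hXr, hbq]
          have e1 : Real.exp (lb * q) = Real.exp ((1 - 2 * δ) * (lb * q)) *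
              (Real.exp (δ * (lb * q)) * Real.exp (δ * (lb * q))) := by
            rw [← Real.exp_add, ← Real.exp_add]; ring_nf
          rw [e1, ← hS]
          have e2 : 1 ≤ Real.exp ((1 - 2 * δ) * (lb * q)) := Real.one_le_exp (by
            apply mul_nonneg (by linarith) hlq.le)
          have e3 : 4 ≤ S := by
            have := Real.add_one_le_exp (δ * (lb * q))
            linarith
          have e4 : Real.exp ((1 - 2 * δ) * (lb * q)) * s ≤ Real.exp ((1 - 2 * δ) * (lb * q)) * S :=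
            mul_le_mul_of_nonneg_left hsS (Real.exp_pos _).le
          have e5 : 1 ≤ Real.exp ((1 - 2 * δ) * (lb * q)) * S := by nlinarith
          have e6 : Real.exp ((1 - 2 * δ) * (lb * q)) * S * 4 ≤
              Real.exp ((1 - 2 * δ) * (lb * q)) * S * S :=
            mul_le_mul_of_nonneg_left e3 (by positivity)
          nlinarith
        have hx0' : 0 < x := lt_of_lt_of_le (Real.exp_pos _) hxlow
        have hlogx : (1 - 2 * δ) * (lb * q) ≤ Real.log x := by
          rw [Real.le_log_iff_exp_le hx0']; exact hxlow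
        have hpos : 0 < (1 - 2 * δ) * (lb * q) := mul_pos (by linarith) hlq
        have h3 := hP x hxlow
        have h4 : (Nat.primeCounting (X / s) : ℝ) ≤ (1 + δ) * x / ((1 - 2 * δ) * (lb * q)) := by
          rw [hfl, le_div_iff₀ hpos]
          have : (Nat.primeCounting ⌊x⌋₊ : ℝ) * ((1 - 2 * δ) * (lb * q)) ≤
            (Nat.primeCounting ⌊x⌋₊ : ℝ) * Real.log x := mul_le_mul_of_nonneg_left hlogx (by positivity)
          linarith
        refine h4.trans ?_
        have h5 : x ≤ (b : ℝ) ^ q * (s : ℝ)⁻¹ := by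
          rw [hx, div_eq_mul_inv]
          exact mul_le_mul_of_nonneg_right hXle (by positivity)
        calc (1 + δ) * x / ((1 - 2 * δ) * (lb * q)) ≤
            (1 + δ) * ((b : ℝ) ^ q * (s : ℝ)⁻¹) / ((1 - 2 * δ) * (lb * q)) := by gcongr
          _ = _ := by ring
      · rw [if_neg hc, if_neg hc]; simp
    refine (Finset.sum_le_sum hterm).trans ?_
    rw [← Finset.mul_sum]
    have h3 := sum_le_VB b q _ hF
    have hpos : 0 < (1 - 2 * δ) * (lb * q) := mul_pos (by linarith) hlq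
    calc (b : ℝ) ^ q * ((1 + δ) / ((1 - 2 * δ) * (lb * q))) *
          ∑ s ∈ (SMz q (X : ℝ)).filter (fun s : ℕ => (s : ℝ) ≤ S), copHom b s ≤
        (b : ℝ) ^ q * ((1 + δ) / ((1 - 2 * δ) * (lb * q))) * VB b q := by gcongr
      _ = _ := by ring
  · have hterm : ∀ s ∈ (SMz q (X : ℝ)).filter (fun s : ℕ => ¬ (s : ℝ) ≤ S),
        (if s.Coprime b then (1 : ℝ) else 0) *
          (((Finset.Ioc 0 (X / s)).filter (fun l => l.Prime ∧ q < l)).card : ℝ) ≤
        (b : ℝ) ^ q * (s : ℝ)⁻¹ := by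
      intro s _
      have h3 : (((Finset.Ioc 0 (X / s)).filter (fun l => l.Prime ∧ q < l)).card : ℝ) ≤
          (X : ℝ) * (s : ℝ)⁻¹ := by
        have h4 : ((Finset.Ioc 0 (X / s)).filter (fun l => l.Prime ∧ q < l)).card ≤ X / s := by
          refine (Finset.card_filter_le _ _).trans ?_
          rw [Nat.card_Ioc, Nat.sub_zero]
        rw [← div_eq_mul_inv]
        exact le_trans (by exact_mod_cast h4) Nat.cast_div_le
      have h5 : (if s.Coprime b then (1 : ℝ) else 0) ≤ 1 := by split_ifs <;> norm_num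
      have h6 : (0 : ℝ) ≤ (if s.Coprime b then (1 : ℝ) else 0) := by split_ifs <;> norm_num
      calc _ ≤ 1 * ((X : ℝ) * (s : ℝ)⁻¹) := mul_le_mul h5 h3 (by positivity) (by norm_num)
        _ ≤ _ := by
          rw [one_mul]
          exact mul_le_mul_of_nonneg_right hXle (by positivity)
    refine (Finset.sum_le_sum hterm).trans ?_
    rw [← Finset.mul_sum]
    apply mul_le_mul_of_nonneg_left _ (by positivity)
    have h3 := tail_le q hS0 ((SMz q (X : ℝ)).filter (fun s : ℕ => ¬ (s : ℝ) ≤ S)) (by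
      intro n hn
      rw [Finset.mem_filter, mem_SMz hXnn] at hn
      exact ⟨hn.1.1, (not_le.1 hn.2).le⟩)
    refine h3.trans (le_of_eq ?_)
    rw [hS, ← Real.exp_mul]
    ring_nf


lemma AA_lower' {b : ℕ} (hb : 2 ≤ b) {δ : ℝ} (hδ : 0 < δ) (hδ1 : δ < 1 / 4) {q : ℕ}
    (hP : ∀ x : ℝ, Real.exp ((1 - 2 * δ) * (Real.log b * q)) ≤ x →
      (1 - δ) * x ≤ (Nat.primeCounting ⌊x⌋₊ : ℝ) * Real.log x)
    (hX3 : 3 ≤ δ * (Real.log b * q)) (hXδ : 1 / δ ≤ δ * (Real.log b * q)) (h2 : b ≤ q) :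
    (b : ℝ) ^ q * ((1 - δ) ^ 2 / (Real.log b * q) *
      (VB b q - Real.exp (-(δ * (Real.log b * q) / 2)) * ZZ q) -
      q * Real.exp (-((1 - δ) * (Real.log b * q)))) ≤ AA b q := by
  set lb := Real.log b with hlb
  have hlb0 : 0 < lb := Real.log_pos (by exact_mod_cast hb)
  have hq0 : (0 : ℝ) < q := by exact_mod_cast (by omega : 0 < q)
  have hlq : 0 < lb * q := by positivity
  set X := b ^ q - 1 with hX
  have hbr : (2 : ℝ) ≤ b := by exact_mod_cast hb
  have hbq : (b : ℝ) ^ q = Real.exp (lb * q) := by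
    rw [mul_comm, Real.exp_nat_mul, hlb, Real.exp_log (by linarith)]
  have hXr : (X : ℝ) = (b : ℝ) ^ q - 1 := by
    rw [hX, Nat.cast_sub (Nat.one_le_pow _ _ (by omega))]
    push_cast
    rfl
  have hbig : 1 / δ ≤ (b : ℝ) ^ q := by
    rw [hbq]
    have e1 := Real.add_one_le_exp (lb * q)
    have e2 : δ * (lb * q) ≤ 1 * (lb * q) := mul_le_mul_of_nonneg_right (by linarith) hlq.le
    linarith
  have hXge : (1 - δ) * (b : ℝ) ^ q ≤ X := by
    rw [hXr]
    rw [div_le_iff₀ hδ] at hbig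
    linarith
  have hXnn : (0 : ℝ) ≤ X := Nat.cast_nonneg _
  have hXle : (X : ℝ) ≤ (b : ℝ) ^ q := by linarith
  set S := Real.exp (δ * (lb * q)) with hS
  have hS0 : 0 < S := Real.exp_pos _
  have hSX : S ≤ X := by
    refine le_trans ?_ hXge
    rw [hbq]
    have e1 : Real.exp (lb * q) = Real.exp ((1 - δ) * (lb * q)) * S := by
      rw [hS, ← Real.exp_add]; ring_nf
    rw [e1]
    have e2 : 2 ≤ Real.exp ((1 - δ) * (lb * q)) := by
      have := Real.add_one_le_exp ((1 - δ) * (lb * q))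
      have e3 : δ * (lb * q) ≤ (1 - δ) * (lb * q) := mul_le_mul_of_nonneg_right (by linarith) hlq.le
      linarith
    nlinarith
  rw [AA_eq hb h2]
  have hsub : SMz q S ⊆ SMz q (X : ℝ) := by
    intro n hn
    rw [mem_SMz hS0.le] at hn
    rw [mem_SMz hXnn]
    exact ⟨hn.1, hn.2.trans hSX⟩
  refine le_trans ?_ (Finset.sum_le_sum_of_subset_of_nonneg hsub fun i _ _ => by
    split_ifs <;> positivity)
  have hterm : ∀ s ∈ SMz q S, (b : ℝ) ^ q * ((1 - δ) ^ 2 / (lb * q)) * copHom b s - q ≤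
      (if s.Coprime b then (1 : ℝ) else 0) *
        (((Finset.Ioc 0 (X / s)).filter (fun l => l.Prime ∧ q < l)).card : ℝ) := by
    intro s hs
    rw [mem_SMz hS0.le] at hs
    obtain ⟨hs1, hsS⟩ := hs
    have hs0 : 0 < s := SM_pos hs1
    have hs0' : (0 : ℝ) < s := by exact_mod_cast hs0
    have hs1' : (1 : ℝ) ≤ s := by exact_mod_cast hs0
    rw [copHom_apply]
    by_cases hc : s.Coprime b
    · rw [if_pos hc, if_pos hc, one_mul]
      refine le_trans ?_ (le_card_inner _ _)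
      set x := (X : ℝ) / s with hx
      have hfl : X / s = ⌊x⌋₊ := by rw [hx, Nat.floor_div_eq_div]
      have hxlow : Real.exp ((1 - 2 * δ) * (lb * q)) ≤ x := by
        rw [hx, le_div_iff₀ hs0', hXr, hbq]
        have e1 : Real.exp (lb * q) = Real.exp ((1 - 2 * δ) * (lb * q)) *
            (Real.exp (δ * (lb * q)) * Real.exp (δ * (lb * q))) := by
          rw [← Real.exp_add, ← Real.exp_add]; ring_nf
        rw [e1, ← hS]
        have e2 : 1 ≤ Real.exp ((1 - 2 * δ) * (lb * q)) := Real.one_le_exp (by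
          apply mul_nonneg (by linarith) hlq.le)
        have e3 : 4 ≤ S := by
          have := Real.add_one_le_exp (δ * (lb * q))
          linarith
        have e4 : Real.exp ((1 - 2 * δ) * (lb * q)) * s ≤ Real.exp ((1 - 2 * δ) * (lb * q)) * S :=
          mul_le_mul_of_nonneg_left hsS (Real.exp_pos _).le
        have e5 : 1 ≤ Real.exp ((1 - 2 * δ) * (lb * q)) * S := by nlinarith
        have e6 : Real.exp ((1 - 2 * δ) * (lb * q)) * S * 4 ≤
            Real.exp ((1 - 2 * δ) * (lb * q)) * S * S :=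
          mul_le_mul_of_nonneg_left e3 (by positivity)
        nlinarith
      have hx0' : 0 < x := lt_of_lt_of_le (Real.exp_pos _) hxlow
      have hx1' : 1 < x := lt_of_lt_of_le (by
        have e1 := Real.add_one_le_exp ((1 - 2 * δ) * (lb * q))
        have e2 : δ * (lb * q) ≤ (1 - 2 * δ) * (lb * q) :=
          mul_le_mul_of_nonneg_right (by linarith) hlq.le
        linarith : (1 : ℝ) < Real.exp ((1 - 2 * δ) * (lb * q))) hxlow
      have hlogx : Real.log x ≤ lb * q := by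
        rw [Real.log_le_iff_le_exp hx0', ← hbq, hx, div_le_iff₀ hs0']
        have : (0 : ℝ) < (b : ℝ) ^ q := by positivity
        nlinarith
      have hlogx0 : 0 < Real.log x := Real.log_pos hx1'
      have h3 := hP x hxlow
      have h4 : (1 - δ) * x / (lb * q) ≤ (Nat.primeCounting (X / s) : ℝ) := by
        rw [hfl, div_le_iff₀ hlq]
        have : (Nat.primeCounting ⌊x⌋₊ : ℝ) * Real.log x ≤
          (Nat.primeCounting ⌊x⌋₊ : ℝ) * (lb * q) := mul_le_mul_of_nonneg_left hlogx (by positivity)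
        linarith
      have h5 : (1 - δ) * (b : ℝ) ^ q * (s : ℝ)⁻¹ ≤ x := by
        rw [hx, div_eq_mul_inv]
        exact mul_le_mul_of_nonneg_right hXge (by positivity)
      have h6 : (b : ℝ) ^ q * ((1 - δ) ^ 2 / (lb * q)) * (s : ℝ)⁻¹ ≤ (1 - δ) * x / (lb * q) := by
        have e1 : (b : ℝ) ^ q * ((1 - δ) ^ 2 / (lb * q)) * (s : ℝ)⁻¹ =
            (1 - δ) * ((1 - δ) * (b : ℝ) ^ q * (s : ℝ)⁻¹) / (lb * q) := by ring
        rw [e1]
        apply div_le_div_of_nonneg_right _ hlq.le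
        exact mul_le_mul_of_nonneg_left h5 (by linarith)
      linarith
    · rw [if_neg hc, if_neg hc]
      simp
  refine le_trans ?_ (Finset.sum_le_sum hterm)
  rw [Finset.sum_sub_distrib, ← Finset.mul_sum, Finset.sum_const, nsmul_eq_mul]
  have hcard : ((SMz q S).card : ℝ) * q ≤ S * q := by
    apply mul_le_mul_of_nonneg_right _ hq0.le
    have h5 : (SMz q S).card ≤ (Finset.Ioc 0 ⌊S⌋₊).card := by
      apply Finset.card_le_card
      intro n hn
      rw [mem_SMz hS0.le] at hn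
      rw [Finset.mem_Ioc]
      exact ⟨SM_pos hn.1, (Nat.le_floor_iff hS0.le).2 hn.2⟩
    rw [Nat.card_Ioc, Nat.sub_zero] at h5
    exact le_trans (by exact_mod_cast h5) (Nat.floor_le hS0.le)
  have hV := VB_le b q hS0
  have hSm : S ^ (-(1 / 2) : ℝ) = Real.exp (-(δ * (lb * q) / 2)) := by
    rw [hS, ← Real.exp_mul]; ring_nf
  rw [hSm] at hV
  have h7 : (b : ℝ) ^ q * ((1 - δ) ^ 2 / (lb * q)) *
      (VB b q - Real.exp (-(δ * (lb * q) / 2)) * ZZ q) ≤
      (b : ℝ) ^ q * ((1 - δ) ^ 2 / (lb * q)) * ∑ s ∈ SMz q S, copHom b s := by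
    apply mul_le_mul_of_nonneg_left (by linarith)
    have : 0 ≤ (1 - δ) ^ 2 / (lb * q) := by positivity
    positivity
  have h8 : (b : ℝ) ^ q * (q * Real.exp (-((1 - δ) * (lb * q)))) = S * q := by
    rw [hbq, hS]
    have : Real.exp (lb * q) * Real.exp (-((1 - δ) * (lb * q))) = Real.exp (δ * (lb * q)) := by
      rw [← Real.exp_add]; ring_nf
    rw [← this]; ring
  have e9 : (b : ℝ) ^ q * ((1 - δ) ^ 2 / (lb * q) *
      (VB b q - Real.exp (-(δ * (lb * q) / 2)) * ZZ q) - q * Real.exp (-((1 - δ) * (lb * q)))) =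
      (b : ℝ) ^ q * ((1 - δ) ^ 2 / (lb * q)) *
      (VB b q - Real.exp (-(δ * (lb * q) / 2)) * ZZ q) -
      (b : ℝ) ^ q * (q * Real.exp (-((1 - δ) * (lb * q)))) := by ring
  rw [e9, h8]
  linarith


/-- the prime number theorem with an error term -/
lemma pi_rate : ∃ C : ℝ, 0 < C ∧ ∀ x : ℝ, 2 ≤ x →
    |(Nat.primeCounting ⌊x⌋₊ : ℝ) * Real.log x - x| ≤ C * (x / Real.log x) := by
  obtain ⟨C, hC, h⟩ := Pool.Agent.H381R2.HR.A2 Pool.Agent.H381R2.HR.A1
  refine ⟨C, hC, fun x hx => ?_⟩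
  have hl : 0 < Real.log x := Real.log_pos (by linarith)
  have h1 := mul_le_mul_of_nonneg_right (h x hx) hl.le
  rw [← abs_of_pos hl, ← abs_mul, abs_of_pos hl] at h1
  have e1 : ((Nat.primeCounting ⌊x⌋₊ : ℝ) - x / Real.log x) * Real.log x =
      (Nat.primeCounting ⌊x⌋₊ : ℝ) * Real.log x - x := by field_simp
  have e2 : C * (x / (Real.log x) ^ 2) * Real.log x = C * (x / Real.log x) := by field_simp
  rwa [e1, e2] at h1

/-- **The mean over the reduced residues with an error term.** -/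
theorem mq_rate {b : ℕ} (hb : 2 ≤ b) : ∃ K : ℝ, 0 < K ∧ ∀ᶠ q : ℕ in atTop,
    |mq b q - Real.exp Real.eulerMascheroniConstant / Real.log b * (Real.log q / q)| ≤ K * (1 / q) := by
  obtain ⟨C, hC, hpi⟩ := pi_rate
  obtain ⟨C1, hC1, hV⟩ := Pool.Agent.TH888.R.VV_rate
  obtain ⟨C2, hC2, hZ⟩ := Pool.Agent.TH888.R.ZZ_rate
  set lb := Real.log b with hlb
  have hlb0 : 0 < lb := Real.log_pos (by exact_mod_cast hb)
  set G := Real.exp Real.eulerMascheroniConstant with hG
  have hG0 : 0 < G := Real.exp_pos _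
  set ρ := (b.totient : ℝ) / b with hρ
  have hρ0 : 0 < ρ := tot_ratio_pos hb
  set D0 := 2 * (C2 + 1) / lb with hD0
  have hD0p : 0 < D0 := by positivity
  refine ⟨(6 * D0 * G + 3 * C1) / lb + (1 / lb + 2) / ρ, by positivity, ?_⟩
  have hlog : ∀ c : ℝ, 0 < c → ∀ᶠ q : ℕ in atTop, Real.log q ≤ c * q := by
    intro c hc
    have h1 := (Real.isLittleO_log_id_atTop).bound hc
    have h2 : ∀ᶠ x : ℝ in atTop, Real.log x ≤ c * x := by
      filter_upwards [h1, eventually_ge_atTop 1] with x hx hx1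
      rw [Real.norm_of_nonneg (Real.log_nonneg hx1), id, Real.norm_of_nonneg (by linarith)] at hx
      exact hx
    exact tendsto_natCast_atTop_atTop.eventually h2
  have hlog2 : ∀ c : ℝ, 0 < c → ∀ᶠ q : ℕ in atTop, Real.log q ^ 2 ≤ c * q := by
    intro c hc
    have h1 := (Real.isLittleO_pow_log_id_atTop (n := 2)).bound hc
    have h2 : ∀ᶠ x : ℝ in atTop, Real.log x ^ 2 ≤ c * x := by
      filter_upwards [h1, eventually_ge_atTop 1] with x hx hx1
      rw [Real.norm_of_nonneg (by positivity), id, Real.norm_of_nonneg (by linarith)] at hx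
      exact hx
    exact tendsto_natCast_atTop_atTop.eventually h2
  filter_upwards [hlog2 1 one_pos, hlog2 (D0 ^ 2 * lb) (by positivity), hlog (D0 * lb / 3) (by positivity),
    hlog (D0 * lb / (2 * C)) (by positivity), hlog (lb / 8) (by positivity),
    log_nat_tendsto.eventually_ge_atTop (8 * D0 + 2), eventually_ge_atTop b, eventually_ge_atTop 3,
    tendsto_natCast_atTop_atTop.eventually_ge_atTop (2 / lb)] with
    q e1 e2 e3 e4 e5 e6 e7 e8 e9
  have hq3 : (3 : ℝ) ≤ q := by exact_mod_cast e8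
  have hq0 : (0 : ℝ) < q := by linarith
  set l := Real.log q with hl
  have hl0 : 0 < l := by linarith
  have hl1 : 1 ≤ l := by linarith
  have hlq : 0 < lb * q := by positivity
  set δ := D0 / l with hδ
  have hδ0 : 0 < δ := by positivity
  have hδl : δ * l = D0 := by rw [hδ]; field_simp
  have hδ1 : δ < 1 / 4 := by
    rw [hδ, div_lt_iff₀ hl0]
    linarith
  have hX3 : 3 ≤ δ * (lb * q) := by
    rw [hδ, div_mul_eq_mul_div, le_div_iff₀ hl0]
    have : D0 * (lb * q) = 3 * (D0 * lb / 3 * q) := by ring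
    rw [this]
    linarith
  have hXδ : 1 / δ ≤ δ * (lb * q) := by
    rw [div_le_iff₀ hδ0]
    have e : δ * (lb * q) * δ = D0 ^ 2 * lb * q / l ^ 2 := by
      rw [hδ]; field_simp
    rw [e, le_div_iff₀ (by positivity)]
    linarith
  have hbase : ∀ x : ℝ, Real.exp ((1 - 2 * δ) * (lb * q)) ≤ x →
      |(Nat.primeCounting ⌊x⌋₊ : ℝ) * Real.log x - x| ≤ δ * x := by
    intro x hx
    have h1 : Real.exp (lb * q / 2) ≤ x := by
      refine le_trans (Real.exp_le_exp.2 ?_) hx
      nlinarith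
    have h2 : 1 ≤ lb * q / 2 := by
      rw [div_le_iff₀ hlb0] at e9
      linarith
    have h3 : 2 ≤ x := by
      have := Real.add_one_le_exp (lb * q / 2)
      linarith
    have hx0 : 0 < x := by linarith
    have h4 : lb * q / 2 ≤ Real.log x := by
      rw [Real.le_log_iff_exp_le hx0]; exact h1
    refine (hpi x h3).trans ?_
    have h5 : C * (x / Real.log x) ≤ C * (x / (lb * q / 2)) := by gcongr
    refine h5.trans ?_
    have h6 : C * (x / (lb * q / 2)) = (2 * C / (lb * q)) * x := by field_simp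
    rw [h6]
    refine mul_le_mul_of_nonneg_right ?_ hx0.le
    rw [hδ, div_le_div_iff₀ hlq hl0]
    have h7 : 2 * C * (D0 * lb / (2 * C) * q) = D0 * (lb * q) := by field_simp
    calc 2 * C * l ≤ 2 * C * (D0 * lb / (2 * C) * q) := by gcongr
      _ = _ := h7
  have hup := AA_upper' hb hδ0 hδ1 (q := q) (fun x hx => by
    have := (abs_le.1 (hbase x hx)).2
    linarith) hX3 e7
  have hlow := AA_lower' hb hδ0 hδ1 (q := q) (fun x hx => by
    have := (abs_le.1 (hbase x hx)).1
    linarith) hX3 hXδ e7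
  rw [← hlb] at hup hlow
  -- the exponentially small terms
  have hZp := hZ q (by omega)
  have hE : Real.exp (-(δ * (lb * q) / 2)) * ZZ q ≤ 1 / q := by
    have h8 : δ * (lb * q) / 2 = (C2 + 1) * (q / l) := by
      rw [hδ, hD0]
      field_simp
    rw [h8]
    calc Real.exp (-((C2 + 1) * (q / l))) * ZZ q ≤
        Real.exp (-((C2 + 1) * (q / l))) * Real.exp (C2 * (q / l)) :=
          mul_le_mul_of_nonneg_left hZp (Real.exp_pos _).le
      _ = Real.exp (-(q / l)) := by rw [← Real.exp_add]; congr 1; ring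
      _ ≤ Real.exp (-l) := by
          refine Real.exp_le_exp.2 (neg_le_neg ?_)
          rw [le_div_iff₀ hl0, ← sq]
          linarith
      _ = 1 / q := by rw [Real.exp_neg, hl, Real.exp_log hq0, one_div]
  have hE0 : 0 ≤ Real.exp (-(δ * (lb * q) / 2)) * ZZ q := mul_nonneg (Real.exp_pos _).le (ZZ_nonneg q)
  have hF : q * Real.exp (-((1 - δ) * (lb * q))) ≤ 1 / q := by
    have h1 : Real.exp (-((1 - δ) * (lb * q))) ≤ Real.exp (-(l + l)) := by
      refine Real.exp_le_exp.2 (neg_le_neg ?_)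
      nlinarith
    have h2 : Real.exp (-(l + l)) = 1 / q * (1 / q) := by
      rw [neg_add, Real.exp_add, Real.exp_neg, hl, Real.exp_log hq0, one_div]
    calc q * Real.exp (-((1 - δ) * (lb * q))) ≤ q * (1 / q * (1 / q)) := by
          rw [← h2]
          gcongr
      _ = 1 / q := by field_simp
  obtain ⟨hV1, hV2⟩ := abs_le.1 (hV q (by omega))
  rw [← hl] at hV1 hV2
  have hVB : VB b q = VV q * ρ := VB_eq hb e7
  have hbq : (0 : ℝ) < (b : ℝ) ^ q := by
    have : (0 : ℝ) < b := by exact_mod_cast (by omega : 0 < b)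
    positivity
  have hmq : mq b q = AA b q / ((b : ℝ) ^ q * ρ) := by
    unfold mq
    rw [tot_pow hb (by omega)]
  have hVV0 := VV_nonneg q
  have hup2 : mq b q ≤ (1 + δ) / ((1 - 2 * δ) * (lb * q)) * VV q + 1 / q / ρ := by
    rw [hmq, div_le_iff₀ (by positivity)]
    refine hup.trans ?_
    rw [hVB]
    have e : ((1 + δ) / ((1 - 2 * δ) * (lb * q)) * VV q + 1 / q / ρ) * ((b : ℝ) ^ q * ρ) =
        (b : ℝ) ^ q * ((1 + δ) / ((1 - 2 * δ) * (lb * q)) * (VV q * ρ) + 1 / q) := by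
      field_simp
    rw [e]
    gcongr
  have hlow2 : (1 - δ) ^ 2 / (lb * q) * (VV q - 1 / q / ρ) - 1 / q / ρ ≤ mq b q := by
    rw [hmq, le_div_iff₀ (by positivity)]
    refine le_trans ?_ hlow
    rw [hVB]
    have e : ((1 - δ) ^ 2 / (lb * q) * (VV q - 1 / q / ρ) - 1 / q / ρ) * ((b : ℝ) ^ q * ρ) =
        (b : ℝ) ^ q * ((1 - δ) ^ 2 / (lb * q) * (VV q * ρ - 1 / q) - 1 / q) := by
      field_simp
    rw [e]
    gcongr
  have hqi : 0 < 1 / (q : ℝ) := by positivity
  have hmain : G / lb * (l / q) = G * l * (1 / (lb * q)) := by field_simp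
  have hi : 0 < 1 / (lb * q) := by positivity
  have hfrac : (1 + δ) / ((1 - 2 * δ) * (lb * q)) ≤ (1 + 6 * δ) * (1 / (lb * q)) := by
    rw [div_le_iff₀ (mul_pos (by linarith) hlq)]
    have : (1 + 6 * δ) * (1 / (lb * q)) * ((1 - 2 * δ) * (lb * q)) = (1 + 6 * δ) * (1 - 2 * δ) := by
      field_simp
    rw [this]
    nlinarith
  have hup3 : mq b q ≤ G * l * (1 / (lb * q)) + (6 * D0 * G + 3 * C1) * (1 / (lb * q)) + 1 / q / ρ := by
    have h8 : (1 + δ) / ((1 - 2 * δ) * (lb * q)) * VV q ≤ (1 + 6 * δ) * (1 / (lb * q)) * (G * l + C1) :=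
      mul_le_mul hfrac (by linarith) hVV0 (by positivity)
    have h9 : (1 + 6 * δ) * (1 / (lb * q)) * (G * l + C1) =
        G * l * (1 / (lb * q)) + (6 * (δ * l) * G + (1 + 6 * δ) * C1) * (1 / (lb * q)) := by ring
    rw [hδl] at h9
    have h10 : (6 * D0 * G + (1 + 6 * δ) * C1) * (1 / (lb * q)) ≤ (6 * D0 * G + 3 * C1) * (1 / (lb * q)) := by
      refine mul_le_mul_of_nonneg_right ?_ hi.le
      nlinarith
    linarith
  have hlow3 : G * l * (1 / (lb * q)) - (6 * D0 * G + 3 * C1) * (1 / (lb * q)) -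
      1 / (lb * q) * (1 / q / ρ) - 1 / q / ρ ≤ mq b q := by
    have hs1 : (1 - δ) ^ 2 ≤ 1 := by nlinarith
    have hs2 : 1 - 2 * δ ≤ (1 - δ) ^ 2 := by nlinarith
    have h8 : (1 - 2 * δ) * (G * l - C1) ≤ (1 - δ) ^ 2 * VV q := by
      have h9 : (1 - 2 * δ) * (G * l - C1) ≤ (1 - 2 * δ) * VV q :=
        mul_le_mul_of_nonneg_left (by linarith) (by linarith)
      have h10 := mul_le_mul_of_nonneg_right hs2 hVV0
      linarith
    have h11 : G * l - (2 * D0 * G + C1) ≤ (1 - δ) ^ 2 * VV q := by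
      have e : (1 - 2 * δ) * (G * l - C1) = G * l - (2 * (δ * l) * G + (1 - 2 * δ) * C1) := by ring
      rw [e, hδl] at h8
      nlinarith
    have h12 : (1 - δ) ^ 2 / (lb * q) * (VV q - 1 / q / ρ) =
        ((1 - δ) ^ 2 * VV q) * (1 / (lb * q)) - (1 - δ) ^ 2 * (1 / (lb * q) * (1 / q / ρ)) := by ring
    have h13 : (G * l - (2 * D0 * G + C1)) * (1 / (lb * q)) ≤ ((1 - δ) ^ 2 * VV q) * (1 / (lb * q)) :=
      mul_le_mul_of_nonneg_right h11 hi.le
    have h14 : (1 - δ) ^ 2 * (1 / (lb * q) * (1 / q / ρ)) ≤ 1 * (1 / (lb * q) * (1 / q / ρ)) :=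
      mul_le_mul_of_nonneg_right hs1 (by positivity)
    have h15 : (2 * D0 * G + C1) * (1 / (lb * q)) ≤ (6 * D0 * G + 3 * C1) * (1 / (lb * q)) := by
      refine mul_le_mul_of_nonneg_right ?_ hi.le
      have := mul_pos hD0p hG0
      linarith
    have e1 : (G * l - (2 * D0 * G + C1)) * (1 / (lb * q)) =
        G * l * (1 / (lb * q)) - (2 * D0 * G + C1) * (1 / (lb * q)) := by ring
    linarith
  have hK : ((6 * D0 * G + 3 * C1) / lb + (1 / lb + 2) / ρ) * (1 / q) =
      (6 * D0 * G + 3 * C1) * (1 / (lb * q)) + 1 / lb * (1 / q / ρ) + 2 * (1 / q / ρ) := by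
    field_simp
    ring
  have h16 : 1 / (lb * q) * (1 / q / ρ) ≤ 1 / lb * (1 / q / ρ) := by
    refine mul_le_mul_of_nonneg_right ?_ (by positivity)
    refine one_div_le_one_div_of_le hlb0 ?_
    nlinarith
  have h17 : 0 ≤ 1 / lb * (1 / q / ρ) := by positivity
  have h18 : 0 ≤ 1 / q / ρ := by positivity
  rw [hmain, hK, abs_le]
  constructor <;> linarith

end Pool.Agent.H39x.TD
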